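import Pool.Agent.U231.FR.NcAll

/-!
# The noncommutative Tate conjecture and products with varieties of Fermat type

Let `κ` be a finite field with `q` elements, of characteristic `p`, and `𝒱` a class of smooth projective
varieties over `κ`, closed under products, with Chow groups `A` with rational coefficients and a Weil
cohomology theory `H` (framework of helper492 and helper484: `TheoryData`, `IsChow`, `IsWeil`). Let `X_i` be
varieties in `𝒱` **of Fermat type** of different prime degrees `N_i` and of lengths at most `s_i`
(`IsFermatType`): the cohomology of `X_i` is generated by the classes of cycles and a subspace `T_i`, stable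
under the Frobenius, such that each eigenvalue of the Frobenius on `T_i` is, up to a root of unity and a
power of `q`, a product `∏_{a ∈ A} g(θ ^ a)` of at most `s_i` Gauss sums over `κ`, where `θ` is a
multiplicative character of `κ` of order `N_i`, and where the multiset `A + p A + ⋯ + p ^ (f - 1) A`, `f` the
order of `p` modulo `N_i`, is not symmetric, i.e. not invariant under `a ↦ -a`.

By the theorem of Weil the diagonal hypersurfaces `∑ c_j x_j ^ N = 0` of dimension `n` over `κ` (for
`q ≡ 1` modulo `N`) and their powers and products are of this form with `s = n + 2` (for products: the sum
of these numbers), if the classes with symmetric `A + p A + ⋯` are algebraic. For `p ≡ 1` modulo `N` the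
condition on the multiset is that `A` is not symmetric, and **the algebraicity for symmetric `A` is known**
for `c_j = 1`, and in general after a finite extension of `κ` (linear subspaces, Ran, Shioda and Katsura).

Let `Z` be **any** variety in `𝒱`, let `B` be the set of the eigenvalues `β` of the Frobenius on
`H(Z)`, and suppose that they are algebraic (theorem of Deligne). Let `f_i` be the order of `p` modulo
`N_i`. Suppose that for all `β` in `B` and all `i` there is an `m > 0` such that (`IsSmallBase`, `IsFermatBase`)

* the field `F = ℚ(β ^ m) ∩ ℚ(ζ_{N_i})`, `ζ_N` a root of unity of order `N`, is real (equivalently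
  `(N_i - 1) / [F : ℚ]` is even); for instance `N_i` is odd and unramified in the field `ℚ(β ^ m)`;
* or `N_i > s_i f_i [F : ℚ] + 1`; or `N_i = 2`.

**So the theorem applies to all prime numbers `N_i` with finitely many exceptions, which depend only on
the fields `ℚ(β)`. For the other primes there is no condition at all on the `X_i`: they may be of any
dimension and products of any number of factors, and `s_i` and `f_i` are arbitrary.**

Let `𝒜` be a smooth proper dg category whose noncommutative motive with rational coefficients is a
direct summand of the one of `Z`, for instance the category of perfect complexes on `Z`, or a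
component of a semi-orthogonal decomposition of it. It is given by an idempotent `e` in the ring
`K_0(Z × Z)_ℚ`, which is identified with `CH(Z × Z)_ℚ` (all degrees together) by the Chern
character multiplied by the square root of the Todd class. Let `X_L` be the product of the `X_i` for
`i` in a finite set `L`. The noncommutative motive of the dg category `perf(X_L) ⊗ 𝒜` is
`(X_L × Z, 1 × e)` (`productOf X Z L`, `relativeOf X e L`); and
the `l`-adic realization of `𝒜` is the image of `e` in the sum of the `H^(2i)(Z)(i)`. The Tate
conjecture for `𝒜` says that all Frobenius invariants in it are linear combinations of classes of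
elements of `K_0(𝒜)`; this for all extensions of `κ` is equivalent to the vanishing of the groups in the
question, by the theorem of Thomason, applied to `Z`, and since the functors involved are defined on
noncommutative motives.

**Theorem.** Under these hypotheses
* **the noncommutative Tate conjecture for `perf(X_L) ⊗ 𝒜` is equivalent to the one for `𝒜`**, for all
  `𝒜`;
* for `i` not in `L` there are finitely many algebraic cycles `D j` on `X_i`, the same for all `𝒜`, such
  that the Frobenius invariants in the realization of `perf(X_i × X_L) ⊗ 𝒜` are the products of the
  classes of the `D j` with those in the realization of `perf(X_L) ⊗ 𝒜`, in a unique way.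

No case of the conjectures of Tate and Grothendieck is assumed, and no motive is assumed to be
finite-dimensional. The hypotheses remain true over all finite extensions of `κ` (for `IsFermatType` by the
theorem of Hasse and Davenport, for `IsSmallBase` since powers of `β` are allowed), so the statement
holds over all these fields, as in the question.

For example the `X_i` may be the diagonal hypersurfaces `∑ x_j ^ N_i = 0`, of any dimensions `n_i`, of
different odd prime degrees `N_i` dividing `p - 1`, and `Z` a curve or an abelian variety, if the `N_i` are
unramified in the fields of the eigenvalues of Frobenius on the cohomology of `Z`.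

The earlier results for this problem are about abelian varieties `A` and dg categories
`perf(A) ⊗ 𝒜`. The varieties of Fermat type are of a different kind: their cohomology is in arbitrary
degrees, the primitive part of a diagonal hypersurface of prime degree `N` decomposes in many pieces
of rank `(N - 1) / f`, among them pieces of very small level, and there is no exceptional set.

The proof. Let `α_i` be eigenvalues of the Frobenius on the `T_i`, for `i` in a nonempty set `I`, and
suppose that `β ∏ α_i` is a power of `q` up to a root of unity. By the theorem of Stickelberger for the
conjugates of Gauss sums the function `t ↦ ∑_{x ∈ A + p A + ⋯} saw(t x)` on `(ℤ/N_i)ˣ` is invariant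
under the subgroup with the fixed field `F`. The values `L(1, χ)` are not zero, so the
sawtooth functions `t ↦ saw(t x)` are independent up to the sign of `x`, and the odd part of the
multiplicity function of `A + p A + ⋯` is invariant under this subgroup and not zero. So `-1` is not
in the subgroup (`F` is not real), and the support of `A + p A + ⋯` contains a coset of it: at least
`(N_i - 1) / [F : ℚ]` elements, but at most `s_i f_i`, a contradiction
(`U231/FF`, as in my hand-ins `FermatFactors` for other conjectures, see the claim file).
Let `P` be the projector given by the `D j` and dual classes. It is the identity on all eigenspaces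
of the Frobenius for the eigenvalues `q ^ n` in the cohomology of `X_i × V`; and the multiplications by
the `D j` commute with `e` and `1 × e`, although `e` is not homogeneous.

helper231 (`Pool/Agent/U231/FF`, `U231/FR`); the projectors of the proof are from the library of helper876
(`N876/CG`), and the part on noncommutative motives is from the library of helper484 (`W484/CK`), built on
helpers 492 and 550.
-/

set_option autoImplicit false

open Polynomial CategoryTheory AlgebraicGeometry

namespace Pool.Agent.Results.MP_de89cc_ag.FermatFactors

open Pool.Agent.H914 Pool.Agent.H914.VarClass Pool.Agent.H914.VarClass.Obj Pool.Agent.W492.BB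
  Pool.Agent.W484.CK Pool.Agent.U231.FF Pool.Agent.U231.FR.Base Pool.Agent.U231.FR.Nc

/-- **The noncommutative Tate conjecture for products with varieties of Fermat type of different prime degrees.** -/
theorem result (p : ℕ) [Fact p.Prime] (κ : Type) [Field κ] [Fintype κ] [CharP κ p] {ι : Type}
    (N s : ι → ℕ) {𝒱 : VarClass κ} (A : TheoryData.{0, 0, 0} 𝒱 ℚ) [IsChow A]
    (hI : IsoInvariant A) {K : Type} [Field K] [IsAlgClosed K] [CharZero K]
    (H : WeilTheoryData.{0, 0, 0} A K) [IsWeil H] (τ : K →+* ℂ) (F : ∀ X : 𝒱.Obj, X ⟶ X)
    (X : ι → 𝒱.Obj) (Z : 𝒱.Obj) (h : IsFermatBase p N s H τ F X Z) :
    (∀ L : List ι, L.Nodup →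
      (∀ e : A.A (Z.prod Z), IsIdempotent A e →
        (NCTateConjecture H (F (productOf X Z L)) (Fintype.card κ) (relativeOf X e L) ↔
          NCTateConjecture H (F Z) (Fintype.card κ) e)) ∧
      ∀ i, i ∉ L → ∃ (J : Type) (_ : Fintype J) (deg : J → ℕ) (D : J → A.A (X i)),
        (∀ j, A.Deg (deg j) (D j)) ∧ ∀ e : A.A (Z.prod Z), IsIdempotent A e →
          TateKunneth H (F (X i)) (F (productOf X Z L)) (Fintype.card κ)
            (relativeOf X e L) D) ∧
    -- the degree in the condition on `Z` is at most the degree of `β`
    (∀ (n : ℕ) (β : ℂ), IsAlgebraic ℚ β → commonDegree n β ≤ (minpoly ℚ β).natDegree) :=
  ⟨fun _ hL => tateAll h hI hL, fun _ _ hβ => commonDegree_le hβ⟩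

end Pool.Agent.Results.MP_de89cc_ag.FermatFactors
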