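import Pool.Agent.U407.NP22

/-!
The noncommutative Tate conjecture for the tensor products of the dg category of perfect complexes on
a surface `y ^ p - y = f(x, t)` with an arbitrary smooth proper dg category over a finite field.
-/

set_option autoImplicit false
set_option maxHeartbeats 1000000

open Polynomial Module TensorProduct

namespace Pool.Agent.Results.MP_de89cc_ag.TimesArtinSchreierSurfaces

section surface

variable {κ : Type} [Field κ]

/-- The polynomial `f` in `x` (outer variable) and `t` (inner variable) has the form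
`f = u x ^ a + w t ^ b + (terms with x ^ m t ^ n for which b m + a n < a b)`, `u, w ≠ 0`. -/
structure HasLeadingExponents (a b : ℕ) (f : κ[X][X]) : Prop where
  pos_a : a ≠ 0
  pos_b : b ≠ 0
  coeff_x : (f.coeff a).coeff 0 ≠ 0
  coeff_t : (f.coeff 0).coeff b ≠ 0
  rest : ∀ m n, (f.coeff m).coeff n ≠ 0 →
    (m = a ∧ n = 0) ∨ (m = 0 ∧ n = b) ∨ b * m + a * n < a * b

/-- The number of points `v = (t, x, y)` over the field with `Q` elements of the surface
`y ^ p - y = f(x, t)`. -/
noncomputable def points (p : ℕ) (f : κ[X][X]) (Q : ℕ) : ℕ :=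
  Nat.card {v : AlgebraicClosure κ × AlgebraicClosure κ × AlgebraicClosure κ //
    v.1 ^ Q = v.1 ∧ v.2.1 ^ Q = v.2.1 ∧ v.2.2 ^ Q = v.2.2 ∧
    v.2.2 ^ p - v.2.2 =
      f.eval₂ (eval₂RingHom (algebraMap κ (AlgebraicClosure κ)) v.1) v.2.1}

/-- The known properties of Frobenius `Φ` on the second cohomology with compact supports `V` of the
affine surface `y ^ p - y = f(x, t)`: the Lefschetz trace formula holds (the other groups with
compact supports are `0` and, in degree four, one-dimensional) and `V` is pure of weight two. -/
structure IsCohomology (p : ℕ) (f : κ[X][X]) {V : Type} [AddCommGroup V] [Module ℂ V]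
    (Φ : Module.End ℂ V) : Prop where
  trace : ∀ m : ℕ, m ≠ 0 → LinearMap.trace ℂ V (Φ ^ m) =
    (points p f (Nat.card κ ^ m) : ℂ) - ((Nat.card κ : ℂ) ^ m) ^ 2
  pure : ∀ α, Φ.HasEigenvalue α → ‖α‖ = (Nat.card κ : ℝ)

end surface

variable {V H T : Type} [AddCommGroup V] [Module ℂ V] [AddCommGroup H] [Module ℂ H]
  [AddCommGroup T] [Module ℂ T]

/-- The known properties of the noncommutative realization `H` (the sum of the `H ^ (2 j)(j)`, with
Frobenius `F`) of `perf 𝒳`, `𝒳` a smooth projective compactification of the affine surface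
over the field with `q` elements: `w k` are classes of algebraic cycles, defined over one finite
extension, `ws k` are the dual classes for the cup product form `BX`, and `i` is the natural map from
the cohomology with compact supports of the affine surface (it respects Frobenius, up to the
twist); its image is orthogonal to the algebraic classes and generates `H` together with them. -/
structure IsRealization (q : ℕ) (Φ : Module.End ℂ V) (F : Module.End ℂ H) (i : V →ₗ[ℂ] H) {m : ℕ}
    (w ws : Fin m → H) (BX : LinearMap.BilinForm ℂ H) : Prop where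
  injective : Function.Injective i
  twist : ∀ v, i (Φ v) = (q : ℂ) • F (i v)
  algebraic : ∃ N : ℕ, N ≠ 0 ∧ ∀ k, (F ^ N) (w k) = w k
  span : Submodule.span ℂ (Set.range w) ⊔ LinearMap.range i = ⊤
  dual : ∀ k l, BX (ws k) (w l) = if k = l then 1 else 0
  orthogonal : ∀ k v, BX (ws k) (i v) = 0

/-- The linear map `h ⊗ z ↦ ⟨w, h⟩ z`: the functor `perf 𝒳 ⊗ 𝒜 → 𝒜`, the tensor product with the
inverse image of an element of `K_0(𝒳)`, followed by the direct image. -/
noncomputable def pushforward (BX : LinearMap.BilinForm ℂ H) (w : H) : H ⊗[ℂ] T →ₗ[ℂ] T :=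
  (TensorProduct.lid ℂ T).toLinearMap ∘ₗ LinearMap.rTensor T (BX w)

/-- The classes which are invariant under a power of Frobenius: the Frobenius invariants over all
finite extensions. -/
noncomputable def invariants (G : Module.End ℂ T) : Submodule ℂ T :=
  ⨆ (m : ℕ) (_ : m ≠ 0), (G ^ m).eigenspace 1

/-- The noncommutative Tate conjecture over all finite extensions: the span `A` of the classes of the
elements of `K_0`, over all finite extensions, is the space of all invariants. -/
def TateConjecture (A : Submodule ℂ T) (G : Module.End ℂ T) : Prop := A = invariants G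

/-- The known properties of the spans `A` and `C` of the classes of `K_0(𝒜)` and
`K_0(perf 𝒳 ⊗ 𝒜)` over all finite extensions, in the realizations `T` of `𝒜` and `H ⊗ T` of
`perf 𝒳 ⊗ 𝒜`. -/
structure AreClasses (F : Module.End ℂ H) (G : Module.End ℂ T) {m : ℕ} (w ws : Fin m → H)
    (BX : LinearMap.BilinForm ℂ H) (A : Submodule ℂ T) (C : Submodule ℂ (H ⊗[ℂ] T)) : Prop where
  invariant : A ≤ invariants G
  invariant' : C ≤ invariants (TensorProduct.map F G)
  product : ∀ k, ∀ z ∈ A, w k ⊗ₜ[ℂ] z ∈ C
  push : ∀ k, ∀ c ∈ C, pushforward BX (ws k) c ∈ A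

/-- The slope of `β` for an embedding `τ` of the complex numbers in an algebraic closure of `ℚ_p`: the
`p`-adic valuation of `τ β`, normalized so that `q` has slope one. -/
noncomputable def slope (p : ℕ) [Fact p.Prime] (q : ℕ) (τ : ℂ →+* PadicAlgCl p) (β : ℂ) : ℝ :=
  Real.log ‖τ β‖ / Real.log ‖(q : PadicAlgCl p)‖

/-- The number `s` is not of the form `r + i / a + j / b` with `r ∈ ℤ`, `0 < i < a`, `0 < j < b`. For
coprime `a` and `b` this means: if `a b s` is an integer then `a s` or `b s` is an integer. -/
def Avoids (a b : ℕ) (s : ℝ) : Prop :=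
  ∀ (r : ℤ) (i j : ℕ), 0 < i → i < a → 0 < j → j < b → s ≠ r + i / a + j / b

/-- **The noncommutative Tate conjecture for `perf 𝒳 ⊗ 𝒜`, `𝒳` a surface
`y ^ p - y = f(x, t)`.**

Let `p` be a prime, `κ` a finite field with `q` elements of characteristic `p`, let `a` and `b` divide
`p - 1`, and let `f = u x ^ a + w t ^ b + …` in `κ[x, t]`, where `u, w ≠ 0` and the other terms
`x ^ m t ^ n` have `m / a + n / b < 1` (all of them are allowed, with any coefficients). Let `𝒳` be
any smooth projective surface over `κ` which contains the affine surface `y ^ p - y = f(x, t)` as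
the complement of a union of curves.

Let `𝒜` be **any** smooth proper dg category over `κ` (for example the category of perfect complexes
on a smooth projective variety, or an admissible subcategory of it) with `l`-adic realization `T` and
Frobenius `G`. The realization is the `l`-adic Tate module of the `K(1)`-local `K`-theory of `𝒜` over
an algebraic closure, for `perf 𝒵` it is the sum of the `H ^ (2 j)(𝒵)(j)`, and for a
direct summand `(𝒵, e)` of it the image of `e`; coefficients `ℂ ≅ ℚ̄_l`. By Künneth the
realization of `perf 𝒳 ⊗ 𝒜` is `H ⊗ T`.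

Suppose that each eigenvalue `β` of Frobenius on `T` (of absolute value one) has a `p`-adic slope, for
some embedding `τ`, which is not of the form `n + i / a + j / b` with `n ∈ ℤ`, `0 < i < a`,
`0 < j < b`. Then:

(1) the space of the Frobenius invariants, over all finite extensions, for `perf 𝒳 ⊗ 𝒜` is the
sum of the products of the classes `w k` of `K_0(𝒳)` with the invariants for `𝒜`;

(2) the span of the classes of `K_0(perf 𝒳 ⊗ 𝒜)` is the sum of the products of the `w k` with the
classes of `K_0(𝒜)`;

(3) the noncommutative Tate conjecture holds for `perf 𝒳 ⊗ 𝒜` over all finite extensions **if and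
only if** it holds for `𝒜`.

(4) Every eigenvalue `γ` on `H ⊗ T` has, for all `τ`, the same slope as an eigenvalue `β` on `T` up to
integral multiples of `1 / (a b)`, and the same absolute value (no condition on the slopes here);
so (3) can be applied again to `perf 𝒳' ⊗ (perf 𝒳 ⊗ 𝒜)` with another surface of this kind.

For coprime `a`, `b` the condition holds for example if the slopes of `𝒜` are integers or have
denominators prime to `a`, or prime to `b`: for the components of the derived category of curves, of
ordinary varieties, of K3 surfaces of finite height prime to `a` or to `b`, for the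
noncommutative K3 surfaces in cubic fourfolds with such slopes, and for all `𝒜` for which the
dimension of `T` is smaller than all prime factors of `a` (the denominator of a slope is at most its
multiplicity). Neither the Tate conjecture nor the finite-dimensionality of a motive is assumed.
The slopes of `𝒳` are computed here from the numbers of points, by Dwork's method; the geometric
genus of `𝒳` is unbounded, and `𝒳` is in general not dominated by a product of curves in any known
way. -/
theorem result {κ : Type} [Field κ] [Finite κ] {p : ℕ} [Fact p.Prime] [CharP κ p] {a b : ℕ}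
    {f : κ[X][X]} (hf : HasLeadingExponents a b f) (ha : a ∣ p - 1) (hb : b ∣ p - 1)
    {V : Type} [AddCommGroup V] [Module ℂ V] [FiniteDimensional ℂ V] {Φ : Module.End ℂ V}
    (h : IsCohomology p f Φ)
    {H : Type} [AddCommGroup H] [Module ℂ H] [FiniteDimensional ℂ H] {F : Module.End ℂ H}
    {i : V →ₗ[ℂ] H} {m : ℕ} (hm : m ≠ 0) {w ws : Fin m → H} {BX : LinearMap.BilinForm ℂ H}
    (hX : IsRealization (Nat.card κ) Φ F i w ws BX)
    {T : Type} [AddCommGroup T] [Module ℂ T] [FiniteDimensional ℂ T] {G : Module.End ℂ T}
    {A : Submodule ℂ T} {C : Submodule ℂ (H ⊗[ℂ] T)} (hC : AreClasses F G w ws BX A C) :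
    ((∀ β, G.HasEigenvalue β → ‖β‖ = 1 →
        ∃ τ : ℂ →+* PadicAlgCl p, Avoids a b (slope p (Nat.card κ) τ β)) →
      invariants (TensorProduct.map F G) =
        ⨆ k, Submodule.map (TensorProduct.mk ℂ H T (w k)) (invariants G) ∧
      C = ⨆ k, Submodule.map (TensorProduct.mk ℂ H T (w k)) A ∧
      (TateConjecture C (TensorProduct.map F G) ↔ TateConjecture A G)) ∧
    (∀ γ, Module.End.HasEigenvalue (TensorProduct.map F G) γ →
      ∃ β, G.HasEigenvalue β ∧ ‖γ‖ = ‖β‖ ∧
        ∀ τ : ℂ →+* PadicAlgCl p, ∃ k : ℤ,
          slope p (Nat.card κ) τ γ = slope p (Nat.card κ) τ β + k / (a * b)) := by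
  classical
  have : Fintype κ := Fintype.ofFinite κ
  have hcard : Nat.card κ = Fintype.card κ := Nat.card_eq_fintype_card
  have hD : Pool.Agent.U407.NP.Dg a b f :=
    ⟨hf.pos_a, hf.pos_b, hf.coeff_x, hf.coeff_t, hf.rest⟩
  have htr : ∀ m, m ≠ 0 → LinearMap.trace ℂ V (Φ ^ m) =
      (Pool.Agent.N867.AS.Trans.Npts p f (Fintype.card κ ^ m) : ℂ) -
        ((Fintype.card κ : ℂ) ^ m) ^ 2 := by
    intro m hm
    rw [← hcard]
    exact h.trace m hm
  have hpure : ∀ α, Φ.HasEigenvalue α → ‖α‖ = (Fintype.card κ : ℝ) := by
    rw [← hcard]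
    exact h.pure
  have hq : (Fintype.card κ : ℂ) ≠ 0 := Nat.cast_ne_zero.2 Fintype.card_ne_zero
  have hi : ∀ v, i ((((Fintype.card κ : ℂ)⁻¹) • Φ) v) = F (i v) := by
    intro v
    have h1 := hX.twist v
    rw [hcard] at h1
    rw [LinearMap.smul_apply, map_smul, h1, smul_smul, inv_mul_cancel₀ hq, one_smul]
  obtain ⟨N, hN, hw⟩ := hX.algebraic
  refine ⟨fun hgood => ?_, fun γ hγ => ?_⟩
  · rw [hcard] at hgood
    have hno := Pool.Agent.U407.NP.nc_no (G := G) hD ha hb htr hpure hgood
    refine ⟨?_, ?_, ?_⟩
    · exact Pool.Agent.U407.NP.inv_product hX.injective hi hN hw hX.span hX.dual hX.orthogonal hno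
    · exact Pool.Agent.U407.NP.classes_product hX.injective hi hN hw hX.span hX.dual
        hX.orthogonal hno hC.invariant' hC.product hC.push
    · exact Pool.Agent.U407.NP.classes_iff hX.injective hi hN hw hX.span hX.dual
        hX.orthogonal hno ⟨0, Nat.pos_of_ne_zero hm⟩ hC.invariant hC.invariant' hC.product hC.push
  · rw [hcard]
    exact Pool.Agent.U407.NP.nc_slopes hD ha hb htr hpure hi hN hw hX.span hγ

end Pool.Agent.Results.MP_de89cc_ag.TimesArtinSchreierSurfaces
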